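import Mathlib

set_option autoImplicit false

/-!
# Maximal number of infinite Voronoi cells (MP_2b3d15_co)

For every infinite, connected, locally finite graph `G` of non-linear growth (in particular for
every vertex-transitive one) the maximal number `M(G)` of infinite Voronoi cells is infinite.

Proof idea: if a ball `B` of radius `r` has more than `n * (2 r + 1)` elements, then for every
vertex `u` the function `dist u` takes at most `2 r + 1` values on `B`, so `B` contains `n`
vertices at the same distance from `u`.  As `V` is infinite and `B` has finitely many subsets,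
one and the same `n`-element set `T` is equidistant from infinitely many `u`; all cells of `T`
contain all those `u`.
-/

namespace Pool.Agent.Results.MP_2b3d15_co.InfiniteCells

universe u

variable {V : Type u}

/-- The closed ball `B(v, r)` of the graph distance. -/
def ball (G : SimpleGraph V) (v : V) (r : ℕ) : Set V := {u | G.dist u v ≤ r}

/-- The Voronoi cell `C(v, T)`. -/
def cell (G : SimpleGraph V) (v : V) (T : Finset V) : Set V :=
  {u | ∀ v' ∈ T, G.dist u v ≤ G.dist u v'}

/-- `I(T)`: the number of sites `v ∈ T` whose Voronoi cell is infinite. -/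
noncomputable def numInfinite (G : SimpleGraph V) (T : Finset V) : ℕ :=
  {v : V | v ∈ T ∧ (cell G v T).Infinite}.ncard

/-- `M(G)`: the supremum of `I(T)` over the finite nonempty sets `T` of sites. -/
noncomputable def maxInfinite (G : SimpleGraph V) : ℕ∞ :=
  ⨆ T : {T : Finset V // T.Nonempty}, (numInfinite G T.1 : ℕ∞)

/-- Linear growth: the sizes of balls are bounded by a linear function of the radius. -/
def LinearGrowth (G : SimpleGraph V) : Prop :=
  ∃ a b : ℝ, ∀ (v : V) (r : ℕ), ((ball G v r).ncard : ℝ) ≤ a * r + b

/-- In a ball with more than `n * (2 r + 1)` vertices there are, for each vertex `u`,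
`n` vertices at the same distance from `u`. -/
lemma exists_equidistant (G : SimpleGraph V) (hG : G.Connected) (n r : ℕ) (v : V)
    (B : Finset V) (hB : ∀ x ∈ B, G.dist x v ≤ r) (hcard : (2 * r + 1) * n < B.card) (u : V) :
    ∃ T ⊆ B, T.card = n ∧ ∀ x ∈ T, ∀ y ∈ T, G.dist u x = G.dist u y := by
  classical
  have hmaps : ∀ x ∈ B, G.dist u x + r - G.dist u v ∈ Finset.range (2 * r + 1) := by
    intro x hx
    have h1 : G.dist u x ≤ G.dist u v + G.dist v x := hG.dist_triangle
    have h2 : G.dist v x ≤ r := by
      rw [SimpleGraph.dist_comm]; exact hB x hx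
    rw [Finset.mem_range]
    omega
  have hcard' : (Finset.range (2 * r + 1)).card * n < B.card := by
    simpa using hcard
  obtain ⟨c, -, hc⟩ :=
    Finset.exists_lt_card_fiber_of_mul_lt_card_of_maps_to hmaps hcard'
  obtain ⟨T, hT, hTn⟩ := Finset.exists_subset_card_eq hc.le
  refine ⟨T, fun x hx => (Finset.mem_filter.1 (hT hx)).1, hTn, ?_⟩
  have key : ∀ x ∈ T, G.dist u x + r = c + G.dist u v := by
    intro x hx
    have h := Finset.mem_filter.1 (hT hx)
    have h1 : G.dist u v ≤ G.dist u x + G.dist x v := hG.dist_triangle
    have h2 := hB x h.1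
    have h3 := h.2
    omega
  intro x hx y hy
  have h1 := key x hx
  have h2 := key y hy
  omega

/-- For an infinite connected graph which does not have linear growth, and every `n`, some set of
`n` sites has `n` infinite Voronoi cells. -/
lemma exists_sites [Infinite V] (G : SimpleGraph V) (hG : G.Connected)
    (hgrowth : ¬ LinearGrowth G) (n : ℕ) :
    ∃ T : Finset V, T.card = n ∧ ∀ v ∈ T, (cell G v T).Infinite := by
  classical
  have h1 : ∃ (v : V) (r : ℕ), (2 * r + 1) * n < (ball G v r).ncard := by
    by_contra hcon
    push Not at hcon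
    apply hgrowth
    refine ⟨2 * n, n, fun v r => ?_⟩
    have h := hcon v r
    have h' : ((ball G v r).ncard : ℝ) ≤ (((2 * r + 1) * n : ℕ) : ℝ) := by exact_mod_cast h
    refine h'.trans (le_of_eq ?_)
    push_cast
    ring
  obtain ⟨v, r, hr⟩ := h1
  have hfin : (ball G v r).Finite := Set.finite_of_ncard_pos (by omega)
  set B : Finset V := hfin.toFinset with hBdef
  have hBcard : (2 * r + 1) * n < B.card := by
    rwa [Set.ncard_eq_toFinset_card _ hfin] at hr
  have hB : ∀ x ∈ B, G.dist x v ≤ r := by
    intro x hx
    exact (Set.Finite.mem_toFinset hfin).1 hx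
  choose T hTB hTn hTeq using exists_equidistant G hG n r v B hB hBcard
  let F : V → {S : Finset V // S ∈ B.powerset} := fun u => ⟨T u, Finset.mem_powerset.2 (hTB u)⟩
  obtain ⟨S, hS⟩ := Finite.exists_infinite_fiber F
  refine ⟨S.1, ?_, ?_⟩
  · obtain ⟨⟨u, hu⟩⟩ := (inferInstance : Nonempty (F ⁻¹' {S}))
    have : T u = S.1 := congrArg Subtype.val (show F u = S from hu)
    rw [← this]; exact hTn u
  · intro x hx
    have hinf : (F ⁻¹' {S}).Infinite := Set.infinite_coe_iff.1 hS
    refine hinf.mono ?_
    intro u hu y hy
    have : T u = S.1 := congrArg Subtype.val (show F u = S from hu)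
    rw [← this] at hx hy
    exact (hTeq u x hx y hy).le

/-- **Answer to Q1 (positive).** For every infinite, connected, locally finite graph of non-linear
growth (vertex-transitive or not), the number of infinite Voronoi cells is unbounded: `M(G) = ∞`.
Q1 asks this for vertex-transitive graphs, where the size of `B(v, r)` does not depend on `v`. -/
theorem result (V : Type u) [Infinite V] (G : SimpleGraph V) (hconn : G.Connected)
    (_hfin : ∀ v : V, (G.neighborSet v).Finite) (hgrowth : ¬ LinearGrowth G) :
    maxInfinite G = ⊤ := by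
  rw [maxInfinite, iSup_eq_top]
  intro b hb
  obtain ⟨n, rfl⟩ := ENat.ne_top_iff_exists.1 hb.ne
  obtain ⟨T, hTn, hT⟩ := exists_sites G hconn hgrowth (n + 1)
  have hne : T.Nonempty := by
    rw [← Finset.card_pos, hTn]; omega
  refine ⟨⟨T, hne⟩, ?_⟩
  have hset : {v : V | v ∈ T ∧ (cell G v T).Infinite} = (T : Set V) := by
    ext x
    constructor
    · intro hx; exact hx.1
    · intro hx; exact ⟨hx, hT x hx⟩
  have hnum : numInfinite G T = n + 1 := by
    rw [numInfinite, hset, Set.ncard_coe_finset, hTn]
  show ((n : ℕ) : ℕ∞) < ((numInfinite G T : ℕ) : ℕ∞)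
  rw [hnum]
  exact_mod_cast Nat.lt_succ_self n

end Pool.Agent.Results.MP_2b3d15_co.InfiniteCells
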